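import Pool.Agent.Q222.Dep.Prob

/-!
# Locally dependent random graphs: definitions, and the cluster construction
-/

namespace Pool.Agent.Q222.Dep

open MeasureTheory ProbabilityTheory

/-- The pairs of vertices `{i, j}`, written with `i < j`. -/
abbrev Pair (n : ℕ) := {e : Fin n × Fin n // e.1 < e.2}

open Classical in
/-- The indicator `X_e` of the event that the pair `e` is an edge of the random graph `G`. -/
noncomputable def edgeInd {Ω : Type*} {n : ℕ} (G : Ω → SimpleGraph (Fin n)) (e : Pair n)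
    (ω : Ω) : ℕ :=
  if (G ω).Adj e.1.1 e.1.2 then 1 else 0

/-- `G` is a `d`-dependent random graph on `n` vertices with edge probability `p`. -/
structure IsDependent {Ω : Type*} [MeasurableSpace Ω] (μ : Measure Ω) {n : ℕ}
    (G : Ω → SimpleGraph (Fin n)) (d : ℕ) (p : ℝ) : Prop where
  /-- the edge indicators are random variables -/
  measurable : ∀ e, Measurable (edgeInd G e)
  /-- each edge is present with probability `p` -/
  prob : ∀ e, μ.real {ω | edgeInd G e ω = 1} = p
  /-- the edge indicators have a dependency graph of maximum degree at most `d` -/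
  dep : ∃ D : SimpleGraph (Pair n), (∀ e, {f | D.Adj e f}.ncard ≤ d) ∧
    ∀ e, IndepFun (edgeInd G e)
      (fun ω (f : {f : Pair n // f ≠ e ∧ ¬ D.Adj e f}) => edgeInd G f.1 ω) μ

variable {n : ℕ}

/-- The label of the cluster of a vertex. -/
def lab (N : ℕ) (v : Fin n) : Fin n := ⟨v.1 % N, lt_of_le_of_lt (Nat.mod_le _ _) v.2⟩

/-- The part (0, 1 or 2) of a vertex. -/
def part (N : ℕ) (v : Fin n) : ℕ := (v.1 % N) % 3

/-- The variable deciding the pair `{u, v}`: a vertex (the centre) and a cluster. -/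
def keyOf (N : ℕ) (u v : Fin n) : Fin n × Fin n :=
  if part N v = (part N u + 1) % 3 then (v, lab N u)
  else if part N u = (part N v + 1) % 3 then (u, lab N v)
  else (max u v, lab N (min u v))

theorem part_lt (N : ℕ) (v : Fin n) : part N v < 3 := Nat.mod_lt _ (by norm_num)

theorem keyOf_comm (N : ℕ) (u v : Fin n) : keyOf N u v = keyOf N v u := by
  have h1 := part_lt N u
  have h2 := part_lt N v
  unfold keyOf
  by_cases h : part N v = (part N u + 1) % 3
  · have h' : ¬ part N u = (part N v + 1) % 3 := by omega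
    rw [if_pos h, if_neg h', if_pos h]
  · rw [if_neg h]
    by_cases h' : part N u = (part N v + 1) % 3
    · rw [if_pos h', if_pos h']
    · rw [if_neg h', if_neg h', if_neg h, max_comm, min_comm]

/-- The random graph of the cluster construction. -/
def gr (N : ℕ) (ω : Fin n × Fin n → Bool) : SimpleGraph (Fin n) where
  Adj u v := u ≠ v ∧ ω (keyOf N u v) = true
  symm := ⟨fun u v h => ⟨h.1.symm, by rw [keyOf_comm]; exact h.2⟩⟩
  loopless := ⟨fun u h => h.1 rfl⟩

/-- The key of a pair. -/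
def key (N : ℕ) (e : Pair n) : Fin n × Fin n := keyOf N e.1.1 e.1.2

/-- The endpoint other than the centre. -/
def oth (N : ℕ) (e : Pair n) : Fin n := if (key N e).1 = e.1.1 then e.1.2 else e.1.1

theorem key_spec (N : ℕ) (e : Pair n) :
    ((key N e).1 = e.1.1 ∧ oth N e = e.1.2 ∨ (key N e).1 = e.1.2 ∧ oth N e = e.1.1) ∧
      (key N e).2 = lab N (oth N e) := by
  have hlt := e.2
  have hne : e.1.1 ≠ e.1.2 := ne_of_lt hlt
  unfold oth key keyOf
  by_cases h : part N e.1.2 = (part N e.1.1 + 1) % 3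
  · rw [if_pos h]
    simp only
    rw [if_neg hne.symm]
    exact ⟨Or.inr ⟨trivial, rfl⟩, rfl⟩
  · rw [if_neg h]
    by_cases h' : part N e.1.1 = (part N e.1.2 + 1) % 3
    · rw [if_pos h']
      rw [if_pos rfl]
      exact ⟨Or.inl ⟨rfl, rfl⟩, rfl⟩
    · rw [if_neg h']
      simp only
      rw [max_eq_right hlt.le, min_eq_left hlt.le, if_neg hne.symm]
      exact ⟨Or.inr ⟨rfl, rfl⟩, rfl⟩

theorem key_oth_inj (N : ℕ) {e f : Pair n} (hk : key N e = key N f) (ho : oth N e = oth N f) :
    e = f := by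
  have h1 := (key_spec N e).1
  have h2 := (key_spec N f).1
  have he := e.2
  have hf := f.2
  rw [← hk, ← ho] at h2
  have hc : (key N e).1 = (key N e).1 := rfl
  apply Subtype.ext
  apply Prod.ext
  · rcases h1 with ⟨a, b⟩ | ⟨a, b⟩ <;> rcases h2 with ⟨c, d⟩ | ⟨c, d⟩
    · rw [← a, ← c]
    · exfalso
      rw [← a, ← b] at he
      rw [← c, ← d] at hf
      exact absurd he (not_lt.2 hf.le)
    · exfalso
      rw [← a, ← b] at he
      rw [← c, ← d] at hf
      exact absurd he (not_lt.2 hf.le)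
    · rw [← b, ← d]
  · rcases h1 with ⟨a, b⟩ | ⟨a, b⟩ <;> rcases h2 with ⟨c, d⟩ | ⟨c, d⟩
    · rw [← b, ← d]
    · exfalso
      rw [← a, ← b] at he
      rw [← c, ← d] at hf
      exact absurd he (not_lt.2 hf.le)
    · exfalso
      rw [← a, ← b] at he
      rw [← c, ← d] at hf
      exact absurd he (not_lt.2 hf.le)
    · rw [← a, ← c]

/-- The dependency graph. -/
def depGraph (n N : ℕ) : SimpleGraph (Pair n) where
  Adj e f := e ≠ f ∧ key N e = key N f
  symm := ⟨fun _ _ h => ⟨h.1.symm, h.2.symm⟩⟩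
  loopless := ⟨fun _ h => h.1 rfl⟩

theorem depGraph_degree (N : ℕ) (e : Pair n) :
    {f | (depGraph n N).Adj e f}.ncard ≤ n / N := by
  classical
  have himg : Set.MapsTo (fun f : Pair n => (oth N f).1 / N) {f | (depGraph n N).Adj e f}
      (((Finset.range (n / N + 1)).erase ((oth N e).1 / N) : Finset ℕ) : Set ℕ) := by
    intro f hf
    obtain ⟨hne, hk⟩ := hf
    rw [Finset.mem_coe, Finset.mem_erase, Finset.mem_range]
    refine ⟨?_, ?_⟩
    · intro hq
      apply hne
      apply key_oth_inj N hk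
      have h1 := (key_spec N e).2
      have h2 := (key_spec N f).2
      rw [hk, h2] at h1
      have h3 : (oth N f).1 % N = (oth N e).1 % N := by
        have := congrArg Fin.val h1
        simpa [lab] using this
      apply Fin.ext
      rw [← Nat.div_add_mod (oth N e).1 N, ← Nat.div_add_mod (oth N f).1 N, h3]
      simp only at hq
      rw [hq]
    · exact Nat.lt_succ_of_le (Nat.div_le_div_right (oth N f).2.le)
  have hinj : Set.InjOn (fun f : Pair n => (oth N f).1 / N) {f | (depGraph n N).Adj e f} := by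
    intro f hf g hg hfg
    obtain ⟨_, hkf⟩ := hf
    obtain ⟨_, hkg⟩ := hg
    have hk : key N f = key N g := hkf.symm.trans hkg
    apply key_oth_inj N hk
    have h1 := (key_spec N f).2
    have h2 := (key_spec N g).2
    rw [hk, h2] at h1
    have h3 : (oth N g).1 % N = (oth N f).1 % N := by
      have := congrArg Fin.val h1
      simpa [lab] using this
    apply Fin.ext
    simp only at hfg
    rw [← Nat.div_add_mod (oth N f).1 N, ← Nat.div_add_mod (oth N g).1 N, h3, hfg]
  have h := Set.ncard_le_ncard_of_injOn _ himg hinj (Finset.finite_toSet _)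
  rw [Set.ncard_coe_finset] at h
  refine h.trans ?_
  rw [Finset.card_erase_of_mem, Finset.card_range, Nat.add_sub_cancel]
  rw [Finset.mem_range]
  exact Nat.lt_succ_of_le (Nat.div_le_div_right (oth N e).2.le)

theorem edgeInd_gr (N : ℕ) (e : Pair n) (ω : Fin n × Fin n → Bool) :
    edgeInd (gr N) e ω = if ω (key N e) = true then 1 else 0 := by
  classical
  unfold edgeInd
  have : (gr N ω).Adj e.1.1 e.1.2 ↔ ω (key N e) = true := by
    constructor
    · exact fun h => h.2
    · exact fun h => ⟨ne_of_lt e.2, h⟩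
  simp only [this]

theorem gr_dependent (N : ℕ) {p : ℝ} (h0 : 0 ≤ p) (h1 : p ≤ 1) :
    IsDependent (bp (Fin n × Fin n) p) (gr (n := n) N) (n / N) p := by
  classical
  refine ⟨?_, ?_, depGraph n N, depGraph_degree N, ?_⟩
  · intro e
    exact measurable_of_finite _
  · intro e
    have : {ω : Fin n × Fin n → Bool | edgeInd (gr N) e ω = 1} = {ω | ω (key N e) = true} := by
      ext ω
      rw [Set.mem_ofPred_eq, Set.mem_ofPred_eq, edgeInd_gr]
      by_cases h : ω (key N e) = true <;> simp [h]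
    rw [this, one_true h0 h1]
  · intro e
    have hind := (coords_indep (ι := Fin n × Fin n) h0 h1).indepFun_finset {key N e}
      (Finset.univ.erase (key N e)) (by simp)
      (fun i => measurable_pi_apply i)
    have hcomp := hind.comp
      (φ := fun g : ({key N e} : Finset (Fin n × Fin n)) → Bool =>
        if g ⟨key N e, by simp⟩ = true then (1 : ℕ) else 0)
      (ψ := fun (g : (Finset.univ.erase (key N e) : Finset (Fin n × Fin n)) → Bool)
        (f : {f : Pair n // f ≠ e ∧ ¬ (depGraph n N).Adj e f}) =>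
        if g ⟨key N f.1, by
          rw [Finset.mem_erase]
          refine ⟨fun h => f.2.2 ⟨f.2.1.symm, h.symm⟩, Finset.mem_univ _⟩⟩ = true
          then (1 : ℕ) else 0)
      (measurable_of_finite _) (measurable_of_finite _)
    have e1 : edgeInd (gr N) e = (fun g : ({key N e} : Finset (Fin n × Fin n)) → Bool =>
        if g ⟨key N e, by simp⟩ = true then (1 : ℕ) else 0) ∘
        (fun ω i => ω i) := by
      funext ω
      rw [edgeInd_gr]
      rfl
    have e2 : (fun (ω : Fin n × Fin n → Bool)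
        (f : {f : Pair n // f ≠ e ∧ ¬ (depGraph n N).Adj e f}) => edgeInd (gr N) f.1 ω)
        = (fun (g : (Finset.univ.erase (key N e) : Finset (Fin n × Fin n)) → Bool)
        (f : {f : Pair n // f ≠ e ∧ ¬ (depGraph n N).Adj e f}) =>
        if g ⟨key N f.1, by
          rw [Finset.mem_erase]
          refine ⟨fun h => f.2.2 ⟨f.2.1.symm, h.symm⟩, Finset.mem_univ _⟩⟩ = true
          then (1 : ℕ) else 0) ∘ (fun ω i => ω i) := by
      funext ω f
      rw [edgeInd_gr]
      rfl
    rw [e1, e2]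
    exact hcomp

/-! ### Connectivity -/

theorem lab_lt {N : ℕ} (hN : 0 < N) (v : Fin n) : (lab N v).1 < N := Nat.mod_lt _ hN

theorem adj_of {N : ℕ} {ω : Fin n × Fin n → Bool} {u w : Fin n}
    (hp : part N w = (part N u + 1) % 3) (hω : ω (w, lab N u) = true) : (gr N ω).Adj u w := by
  refine ⟨?_, ?_⟩
  · rintro rfl
    have := part_lt N u
    omega
  · rw [keyOf, if_pos hp]
    exact hω

/-- The good event. -/
def Good (m : ℕ) (ω : Fin n × Fin n → Bool) : Prop :=
  ∀ A A' : Fin n, A.1 < 3 * m → A'.1 < 3 * m → A ≠ A' → A.1 % 3 = A'.1 % 3 →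
    ∃ w w' : Fin n, lab (3 * m) w = lab (3 * m) w' ∧ part (3 * m) w = (A.1 % 3 + 1) % 3 ∧
      ω (w, A) = true ∧ ω (w', A') = true

theorem exists_other {m : ℕ} (hm : 2 ≤ m) (hn : 3 * m ≤ n) (A : Fin n) (hA : A.1 < 3 * m) :
    ∃ A' : Fin n, A'.1 < 3 * m ∧ A ≠ A' ∧ A.1 % 3 = A'.1 % 3 := by
  by_cases h : A.1 + 3 < 3 * m
  · refine ⟨⟨A.1 + 3, by omega⟩, h, ?_, ?_⟩
    · intro h'
      have := congrArg Fin.val h'
      simp only at this
      omega
    · simp only; omega
  · refine ⟨⟨A.1 + 3 - 3 * m, by omega⟩, ?_, ?_, ?_⟩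
    · simp only; omega
    · intro h'
      have := congrArg Fin.val h'
      simp only at this
      omega
    · simp only; omega

theorem connected_of_good {m : ℕ} (hm : 2 ≤ m) (hn : 3 * m ≤ n) {ω : Fin n × Fin n → Bool}
    (hg : Good m ω) : (gr (3 * m) ω).Connected := by
  have hN : 0 < 3 * m := by omega
  have hlp : ∀ v : Fin n, (lab (3 * m) v).1 % 3 = part (3 * m) v := fun v => rfl
  -- step 1
  have s1 : ∀ u v : Fin n, lab (3 * m) u = lab (3 * m) v → (gr (3 * m) ω).Reachable u v := by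
    intro u v huv
    obtain ⟨A', h1, h2, h3⟩ := exists_other hm hn (lab (3 * m) u) (lab_lt hN u)
    obtain ⟨w, w', hww, hp, ha, _⟩ := hg _ A' (lab_lt hN u) h1 h2 h3
    have a1 : (gr (3 * m) ω).Adj u w := adj_of hp ha
    have a2 : (gr (3 * m) ω).Adj v w := by
      apply adj_of
      · rw [← hlp v, ← huv]; exact hp
      · rw [← huv]; exact ha
    exact a1.reachable.trans a2.symm.reachable
  have s2 : ∀ u v : Fin n, part (3 * m) u = part (3 * m) v →
      (gr (3 * m) ω).Reachable u v := by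
    intro u v huv
    by_cases hl : lab (3 * m) u = lab (3 * m) v
    · exact s1 u v hl
    · obtain ⟨w, w', hww, hp, ha, ha'⟩ := hg _ _ (lab_lt hN u) (lab_lt hN v) hl huv
      have a1 : (gr (3 * m) ω).Adj u w := adj_of hp ha
      have a2 : (gr (3 * m) ω).Adj v w' := by
        apply adj_of _ ha'
        rw [← hlp w', ← hww, hlp w, hp, ← huv]
        rfl
      exact (a1.reachable.trans (s1 w w' hww)).trans a2.symm.reachable
  have s3 : ∀ u v : Fin n, part (3 * m) v = (part (3 * m) u + 1) % 3 →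
      (gr (3 * m) ω).Reachable u v := by
    intro u v huv
    obtain ⟨A', h1, h2, h3⟩ := exists_other hm hn (lab (3 * m) u) (lab_lt hN u)
    obtain ⟨w, w', hww, hp, ha, _⟩ := hg _ A' (lab_lt hN u) h1 h2 h3
    have a1 : (gr (3 * m) ω).Adj u w := adj_of hp ha
    exact a1.reachable.trans (s2 w v (by rw [hp, huv]; rfl))
  have : Nonempty (Fin n) := ⟨⟨0, by omega⟩⟩
  refine ⟨fun u v => ?_⟩
  have h1 := part_lt (3 * m) u
  have h2 := part_lt (3 * m) v
  rcases (by omega : part (3 * m) u = part (3 * m) v ∨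
    part (3 * m) v = (part (3 * m) u + 1) % 3 ∨ part (3 * m) u = (part (3 * m) v + 1) % 3)
    with h | h | h
  · exact s2 u v h
  · exact s3 u v h
  · exact (s3 v u h).symm

/-! ### Probability of the bad event -/

/-- The coordinates `(w, A)` with `w` in the cluster `B`. -/
def blk (N : ℕ) (B : ℕ) (A : Fin n) : Finset (Fin n × Fin n) :=
  (Finset.univ.filter fun w : Fin n => w.1 % N = B).map ⟨fun w => (w, A), fun _ _ h => by
    simpa using h⟩

theorem mem_blk {N B : ℕ} {A : Fin n} {x : Fin n × Fin n} :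
    x ∈ blk N B A ↔ x.1.1 % N = B ∧ x.2 = A := by
  unfold blk
  simp only [Finset.mem_map, Finset.mem_filter, Finset.mem_univ, true_and,
    Function.Embedding.coeFn_mk]
  constructor
  · rintro ⟨w, hw, rfl⟩; exact ⟨hw, rfl⟩
  · rintro ⟨h1, h2⟩; subst h2; exact ⟨x.1, h1, rfl⟩

theorem card_blk {N B : ℕ} (hB : B < N) (A : Fin n) : n / N ≤ (blk N B A).card := by
  classical
  unfold blk
  rw [Finset.card_map]
  have hlt : ∀ j : Fin (n / N), B + N * j.1 < n := by
    intro j
    have h1 : N * (j.1 + 1) ≤ N * (n / N) := Nat.mul_le_mul_left _ j.2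
    have h2 : N * (n / N) ≤ n := Nat.mul_div_le n N
    rw [Nat.mul_add, Nat.mul_one] at h1
    omega
  have hN : 0 < N := by omega
  have h := Finset.card_le_card (s := (Finset.univ : Finset (Fin (n / N))).map
    ⟨fun j => (⟨B + N * j.1, hlt j⟩ : Fin n), fun i j h => by
      have := congrArg Fin.val h
      simp only at this
      apply Fin.ext
      exact Nat.eq_of_mul_eq_mul_left hN (by omega)⟩)
    (t := Finset.univ.filter fun w : Fin n => w.1 % N = B) (by
      intro w hw
      rw [Finset.mem_map] at hw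
      obtain ⟨j, _, rfl⟩ := hw
      rw [Finset.mem_filter]
      refine ⟨Finset.mem_univ _, ?_⟩
      change (B + N * j.1) % N = B
      rw [Nat.add_mul_mod_self_left, Nat.mod_eq_of_lt hB])
  rw [Finset.card_map, Finset.card_univ, Fintype.card_fin] at h
  exact h

/-- The event that the clusters `A` and `A'` have no common neighbouring cluster in the next
part. -/
def bad (m : ℕ) (A A' : Fin n) : Set (Fin n × Fin n → Bool) :=
  {ω | ∀ j ∈ Finset.range m, ω ∈
    ({ω | ∀ i ∈ blk (3 * m) (3 * j + (A.1 % 3 + 1) % 3) A, ω i = false} ∪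
     {ω | ∀ i ∈ blk (3 * m) (3 * j + (A.1 % 3 + 1) % 3) A', ω i = false} :
      Set (Fin n × Fin n → Bool))}

theorem prob_bad {m : ℕ} {p : ℝ} (h0 : 0 ≤ p) (h1 : p ≤ 1) {A A' : Fin n} (hA : A ≠ A') :
    (bp (Fin n × Fin n) p).real (bad m A A')
      ≤ (1 - (1 - (1 - p) ^ (n / (3 * m))) ^ 2) ^ m := by
  classical
  unfold bad
  have hdis : ∀ B B' : ℕ, ∀ C C' : Fin n, (B ≠ B' ∨ C ≠ C') →
      Disjoint (blk (3 * m) B C) (blk (3 * m) B' C') := by
    intro B B' C C' h
    rw [Finset.disjoint_left]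
    intro x hx hx'
    rw [mem_blk] at hx hx'
    rcases h with h | h
    · exact h (hx.1.symm.trans hx'.1)
    · exact h (hx.2.symm.trans hx'.2)
  rw [blocks h0 h1 (fun j => blk (3 * m) (3 * j + (A.1 % 3 + 1) % 3) A ∪
    blk (3 * m) (3 * j + (A.1 % 3 + 1) % 3) A')]
  · have hterm : ∀ j ∈ Finset.range m, (bp (Fin n × Fin n) p).real
        ({ω | ∀ i ∈ blk (3 * m) (3 * j + (A.1 % 3 + 1) % 3) A, ω i = false} ∪
         {ω | ∀ i ∈ blk (3 * m) (3 * j + (A.1 % 3 + 1) % 3) A', ω i = false})
        ≤ 1 - (1 - (1 - p) ^ (n / (3 * m))) ^ 2 := by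
      intro j hj
      rw [Finset.mem_range] at hj
      rw [or_false h0 h1 (hdis _ _ _ _ (Or.inr hA))]
      have hB : 3 * j + (A.1 % 3 + 1) % 3 < 3 * m := by omega
      have c1 := card_blk hB A
      have c2 := card_blk hB A'
      have q0 : 0 ≤ 1 - p := by linarith
      have q1 : 1 - p ≤ 1 := by linarith
      have e1 := pow_le_pow_of_le_one q0 q1 c1
      have e2 := pow_le_pow_of_le_one q0 q1 c2
      have e3 : (1 - p) ^ (n / (3 * m)) ≤ 1 := pow_le_one₀ q0 q1
      nlinarith
    calc ∏ j ∈ Finset.range m, _ ≤ ∏ _j ∈ Finset.range m,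
          (1 - (1 - (1 - p) ^ (n / (3 * m))) ^ 2) :=
          Finset.prod_le_prod (fun _ _ => measureReal_nonneg) hterm
      _ = _ := by rw [Finset.prod_const, Finset.card_range]
  · intro j ω ω' h hω
    rcases hω with hω | hω
    · left
      intro i hi
      rw [← h i (Finset.mem_union_left _ hi)]
      exact hω i hi
    · right
      intro i hi
      rw [← h i (Finset.mem_union_right _ hi)]
      exact hω i hi
  · intro i _ j _ hij
    rw [Finset.disjoint_union_left, Finset.disjoint_union_right, Finset.disjoint_union_right]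
    have : 3 * i + (A.1 % 3 + 1) % 3 ≠ 3 * j + (A.1 % 3 + 1) % 3 := by omega
    exact ⟨⟨hdis _ _ _ _ (Or.inl this), hdis _ _ _ _ (Or.inl this)⟩,
      hdis _ _ _ _ (Or.inl this), hdis _ _ _ _ (Or.inl this)⟩

theorem not_good_subset (m : ℕ) :
    {ω : Fin n × Fin n → Bool | ¬ Good m ω} ⊆
      ⋃ x ∈ (Finset.univ.filter fun x : Fin n × Fin n => x.1.1 < 3 * m ∧ x.2.1 < 3 * m ∧
        x.1 ≠ x.2), bad m x.1 x.2 := by
  intro ω hω
  rw [Set.mem_ofPred_eq, Good] at hω
  push Not at hω
  obtain ⟨A, A', h1, h2, h3, h4, h5⟩ := hω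
  rw [Set.mem_iUnion₂]
  refine ⟨(A, A'), ?_, ?_⟩
  · rw [Finset.mem_filter]
    exact ⟨Finset.mem_univ _, h1, h2, h3⟩
  · intro j hj
    rw [Finset.mem_range] at hj
    by_contra hcon
    rw [Set.mem_union, not_or] at hcon
    obtain ⟨c1, c2⟩ := hcon
    simp only [Set.mem_ofPred_eq, not_forall, Bool.not_eq_false] at c1 c2
    obtain ⟨x, hx, hx'⟩ := c1
    obtain ⟨y, hy, hy'⟩ := c2
    rw [mem_blk] at hx hy
    refine h5 x.1 y.1 ?_ ?_ ?_ ?_
    · apply Fin.ext
      change x.1.1 % (3 * m) = y.1.1 % (3 * m)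
      rw [hx.1, hy.1]
    · change x.1.1 % (3 * m) % 3 = _
      rw [hx.1]
      omega
    · rw [← hx.2]; exact hx'
    · rw [← hy.2]; exact hy'

theorem prob_disconnected {m : ℕ} (hm : 2 ≤ m) (hn : 3 * m ≤ n) {p : ℝ} (h0 : 0 ≤ p)
    (h1 : p ≤ 1) :
    (bp (Fin n × Fin n) p).real {ω | ¬ (gr (n := n) (3 * m) ω).Connected}
      ≤ (3 * m) ^ 2 * (1 - (1 - (1 - p) ^ (n / (3 * m))) ^ 2) ^ m := by
  classical
  have := bp_prob (ι := Fin n × Fin n) h0 h1
  set I := Finset.univ.filter fun x : Fin n × Fin n => x.1.1 < 3 * m ∧ x.2.1 < 3 * m ∧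
        x.1 ≠ x.2 with hI
  have hsub : {ω | ¬ (gr (n := n) (3 * m) ω).Connected} ⊆ ⋃ x ∈ I, bad m x.1 x.2 := by
    intro ω hω
    exact not_good_subset m (fun hg => hω (connected_of_good hm hn hg))
  have hcard : I.card ≤ (3 * m) ^ 2 := by
    have : I.card ≤ (Finset.range (3 * m) ×ˢ Finset.range (3 * m)).card := by
      apply Finset.card_le_card_of_injOn (fun x => (x.1.1, x.2.1))
      · intro x hx
        rw [Finset.mem_coe, hI, Finset.mem_filter] at hx
        rw [Finset.mem_coe, Finset.mem_product, Finset.mem_range, Finset.mem_range]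
        exact ⟨hx.2.1, hx.2.2.1⟩
      · intro x _ y _ hxy
        simp only [Prod.mk.injEq] at hxy
        exact Prod.ext (Fin.ext hxy.1) (Fin.ext hxy.2)
    rw [Finset.card_product, Finset.card_range] at this
    rw [sq]
    exact this
  have hq : (0 : ℝ) ≤ (1 - (1 - (1 - p) ^ (n / (3 * m))) ^ 2) := by
    have q0 : 0 ≤ 1 - p := by linarith
    have q1 : 1 - p ≤ 1 := by linarith
    have e3 : (1 - p) ^ (n / (3 * m)) ≤ 1 := pow_le_one₀ q0 q1
    have e4 : 0 ≤ (1 - p) ^ (n / (3 * m)) := pow_nonneg q0 _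
    nlinarith
  calc (bp (Fin n × Fin n) p).real {ω | ¬ (gr (n := n) (3 * m) ω).Connected}
      ≤ (bp (Fin n × Fin n) p).real (⋃ x ∈ I, bad m x.1 x.2) :=
        measureReal_mono hsub (measure_ne_top _ _)
    _ ≤ ∑ x ∈ I, (bp (Fin n × Fin n) p).real (bad m x.1 x.2) :=
        measureReal_biUnion_finset_le _ _
    _ ≤ ∑ _x ∈ I, (1 - (1 - (1 - p) ^ (n / (3 * m))) ^ 2) ^ m := by
        apply Finset.sum_le_sum
        intro x hx
        rw [hI, Finset.mem_filter] at hx
        exact prob_bad h0 h1 hx.2.2.2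
    _ = I.card * (1 - (1 - (1 - p) ^ (n / (3 * m))) ^ 2) ^ m := by
        rw [Finset.sum_const, nsmul_eq_mul]
    _ ≤ (3 * m) ^ 2 * (1 - (1 - (1 - p) ^ (n / (3 * m))) ^ 2) ^ m := by
        apply mul_le_mul_of_nonneg_right _ (pow_nonneg hq _)
        exact_mod_cast hcard

end Pool.Agent.Q222.Dep
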