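import Mathlib

/-!
# Product Bernoulli measure on a finite cube
-/

namespace Pool.Agent.Q222.Dep

open MeasureTheory ProbabilityTheory

/-- The Bernoulli measure on `Bool` with parameter `p`. -/
noncomputable def bern (p : ℝ) : Measure Bool :=
  ENNReal.ofReal p • Measure.dirac true + ENNReal.ofReal (1 - p) • Measure.dirac false

theorem bern_prob {p : ℝ} (h0 : 0 ≤ p) (h1 : p ≤ 1) : IsProbabilityMeasure (bern p) :=
  ⟨by
    have : ENNReal.ofReal p + ENNReal.ofReal (1 - p) = 1 := by
      rw [← ENNReal.ofReal_add h0 (sub_nonneg.2 h1)]; simp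
    simpa [bern] using this⟩

theorem bern_true (p : ℝ) : bern p {true} = ENNReal.ofReal p := by
  simp [bern]

theorem bern_false (p : ℝ) : bern p {false} = ENNReal.ofReal (1 - p) := by
  simp [bern]

variable {ι : Type*} [Fintype ι]

/-- The product Bernoulli measure. -/
noncomputable def bp (ι : Type*) [Fintype ι] (p : ℝ) : Measure (ι → Bool) :=
  Measure.pi fun _ => bern p

theorem bp_prob {p : ℝ} (h0 : 0 ≤ p) (h1 : p ≤ 1) : IsProbabilityMeasure (bp ι p) := by
  have := bern_prob h0 h1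
  unfold bp
  infer_instance

theorem meas_any (s : Set (ι → Bool)) : MeasurableSet s := (Set.toFinite s).measurableSet

theorem coords_indep {p : ℝ} (h0 : 0 ≤ p) (h1 : p ≤ 1) :
    iIndepFun (fun (i : ι) (ω : ι → Bool) => ω i) (bp ι p) := by
  have := bern_prob h0 h1
  exact iIndepFun_pi (X := fun _ (x : Bool) => x) (μ := fun _ : ι => bern p)
    (fun _ => measurable_id.aemeasurable)

/-- `E` only depends on the coordinates in `S`. -/
def DepOn (S : Finset ι) (E : Set (ι → Bool)) : Prop :=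
  ∀ ω ω' : ι → Bool, (∀ i ∈ S, ω i = ω' i) → ω ∈ E → ω' ∈ E

theorem two {p : ℝ} (h0 : 0 ≤ p) (h1 : p ≤ 1) {S T : Finset ι} (hST : Disjoint S T)
    {E F : Set (ι → Bool)} (hE : DepOn S E) (hF : DepOn T F) :
    (bp ι p).real (E ∩ F) = (bp ι p).real E * (bp ι p).real F := by
  have hind := (coords_indep (ι := ι) h0 h1).indepFun_finset S T hST
    (fun i => measurable_pi_apply i)
  have key : ∀ (S : Finset ι) (E : Set (ι → Bool)), DepOn S E →
      E = (fun (ω : ι → Bool) (i : S) => ω i) ⁻¹'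
        {g : S → Bool | ∃ ω ∈ E, ∀ i : S, ω i = g i} := by
    intro S E hE
    ext ω
    constructor
    · intro h; exact ⟨ω, h, fun _ => rfl⟩
    · rintro ⟨ω', h, h'⟩
      exact hE ω' ω (fun i hi => h' ⟨i, hi⟩) h
  have hm := hind.measure_inter_preimage_eq_mul
    {g : S → Bool | ∃ ω ∈ E, ∀ i : S, ω i = g i} {g : T → Bool | ∃ ω ∈ F, ∀ i : T, ω i = g i}
    (Set.toFinite _).measurableSet (Set.toFinite _).measurableSet
  rw [← key S E hE, ← key T F hF] at hm
  rw [Measure.real, Measure.real, Measure.real, hm, ENNReal.toReal_mul]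

theorem blocks {κ : Type*} [DecidableEq κ] {p : ℝ} (h0 : 0 ≤ p) (h1 : p ≤ 1) (T : κ → Finset ι)
    (F : κ → Set (ι → Bool)) (hF : ∀ j, DepOn (T j) (F j))
    (J : Finset κ) (hT : ∀ i ∈ J, ∀ j ∈ J, i ≠ j → Disjoint (T i) (T j)) :
    (bp ι p).real {ω | ∀ j ∈ J, ω ∈ F j} = ∏ j ∈ J, (bp ι p).real (F j) := by
  classical
  have := bp_prob (ι := ι) h0 h1
  induction J using Finset.induction_on with
  | empty => simp
  | insert a J ha ih =>
    have hset : {ω | ∀ j ∈ insert a J, ω ∈ F j} = F a ∩ {ω | ∀ j ∈ J, ω ∈ F j} := by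
      ext ω
      simp
    rw [hset, Finset.prod_insert ha, two (S := T a) (T := J.biUnion T) h0 h1 _ (hF a), ih]
    · intro i hi j hj hij
      exact hT i (Finset.mem_insert_of_mem hi) j (Finset.mem_insert_of_mem hj) hij
    · intro ω ω' h hω j hj
      exact hF j ω ω' (fun i hi => h i (Finset.mem_biUnion.2 ⟨j, hj, hi⟩)) (hω j hj)
    · rw [Finset.disjoint_biUnion_right]
      intro j hj
      exact hT a (Finset.mem_insert_self _ _) j (Finset.mem_insert_of_mem hj)
        (fun h => ha (h ▸ hj))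

theorem all_false {p : ℝ} (h0 : 0 ≤ p) (h1 : p ≤ 1) (S : Finset ι) :
    (bp ι p).real {ω | ∀ i ∈ S, ω i = false} = (1 - p) ^ S.card := by
  classical
  have := bern_prob h0 h1
  have hset : {ω : ι → Bool | ∀ i ∈ S, ω i = false}
      = Set.univ.pi (fun i => if i ∈ S then {false} else Set.univ) := by
    ext ω
    simp only [Set.mem_ofPred_eq, Set.mem_pi, Set.mem_univ, forall_true_left]
    refine forall_congr' fun i => ?_
    by_cases hi : i ∈ S <;> simp [hi]
  rw [hset, Measure.real, bp, Measure.pi_pi]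
  have : ∀ i, bern p (if i ∈ S then {false} else Set.univ)
      = if i ∈ S then ENNReal.ofReal (1 - p) else 1 := by
    intro i
    by_cases hi : i ∈ S
    · simp [hi, bern_false]
    · rw [if_neg hi, if_neg hi]; exact measure_univ
  simp only [this]
  rw [Finset.prod_ite, Finset.prod_const_one, mul_one, Finset.prod_const, ENNReal.toReal_pow,
    ENNReal.toReal_ofReal (sub_nonneg.2 h1)]
  congr 1
  simp

theorem one_true {p : ℝ} (h0 : 0 ≤ p) (h1 : p ≤ 1) (i : ι) :
    (bp ι p).real {ω | ω i = true} = p := by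
  classical
  have := bp_prob (ι := ι) h0 h1
  have h := all_false (ι := ι) h0 h1 {i}
  have hset : {ω : ι → Bool | ω i = true} = {ω | ∀ j ∈ ({i} : Finset ι), ω j = false}ᶜ := by
    ext ω; simp
  rw [hset, probReal_compl_eq_one_sub (meas_any _), h]
  simp

theorem dep_false (S : Finset ι) : DepOn S {ω : ι → Bool | ∀ i ∈ S, ω i = false} := by
  intro ω ω' h hω i hi
  rw [← h i hi]; exact hω i hi

theorem dep_compl {S : Finset ι} {E : Set (ι → Bool)} (h : DepOn S E) : DepOn S Eᶜ := by
  intro ω ω' h' hω hω'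
  exact hω (h ω' ω (fun i hi => (h' i hi).symm) hω')

theorem dep_mono {S T : Finset ι} {E : Set (ι → Bool)} (hST : S ⊆ T) (h : DepOn S E) : DepOn T E :=
  fun ω ω' h' hω => h ω ω' (fun i hi => h' i (hST hi)) hω

/-- Probability that one of two disjoint blocks vanishes. -/
theorem or_false {p : ℝ} (h0 : 0 ≤ p) (h1 : p ≤ 1) {S T : Finset ι} (hST : Disjoint S T) :
    (bp ι p).real ({ω | ∀ i ∈ S, ω i = false} ∪ {ω | ∀ i ∈ T, ω i = false})
      = 1 - (1 - (1 - p) ^ S.card) * (1 - (1 - p) ^ T.card) := by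
  have := bp_prob (ι := ι) h0 h1
  have hset : ({ω | ∀ i ∈ S, ω i = false} ∪ {ω | ∀ i ∈ T, ω i = false} : Set (ι → Bool))
      = ({ω | ∀ i ∈ S, ω i = false}ᶜ ∩ {ω | ∀ i ∈ T, ω i = false}ᶜ)ᶜ := by
    rw [Set.compl_inter, compl_compl, compl_compl]
  rw [hset, probReal_compl_eq_one_sub (meas_any _),
    two h0 h1 hST (dep_compl (dep_false S)) (dep_compl (dep_false T)),
    probReal_compl_eq_one_sub (meas_any _), probReal_compl_eq_one_sub (meas_any _),
    all_false h0 h1, all_false h0 h1]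

end Pool.Agent.Q222.Dep
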